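import Pool.Agent.Helper16.MD.Stmts

/-! # Module EST: all moduli -/

open Finset Filter
open scoped ComplexConjugate

namespace Pool.Agent.Helper16.MD

theorem est_swap {d : ℕ} [NeZero d] (b : ZMod d) (Q₁ Q₂ Q₃ : Finset ℕ) :
    S3 b Q₁ Q₂ Q₃ = ∑ q ∈ Q₂, S2 (b * (q : ZMod d)⁻¹) Q₁ Q₃ := by
  unfold S3 S2
  rw [Finset.sum_comm]
  refine Finset.sum_congr rfl fun q _ => Finset.sum_congr rfl fun p _ =>
    Finset.sum_congr rfl fun r _ => ?_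
  rw [mul_right_comm b]

theorem est_unit {d : ℕ} [NeZero d] {b : ZMod d} (hb : IsUnit b) {q : ℕ} (hq : q.Prime)
    (hd : ¬ q ∣ d) : IsUnit (b * (q : ZMod d)⁻¹) := by
  have hc : q.Coprime d := (Nat.Prime.coprime_iff_not_dvd hq).mpr hd
  have h1 : (q : ZMod d) * (q : ZMod d)⁻¹ = 1 := ZMod.coe_mul_inv_eq_one q hc
  exact hb.mul (IsUnit.of_mul_eq_one _ ((mul_comm _ _).trans h1))

theorem est_sum {d : ℕ} [NeZero d] (b : ZMod d) (Q₁ Q₂ Q₃ : Finset ℕ) (ε : ℝ)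
    (h : ∀ q ∈ Q₂, ‖S2 (b * (q : ZMod d)⁻¹) Q₁ Q₃‖ ≤ ε * Q₁.card * Q₃.card) :
    ‖S3 b Q₁ Q₂ Q₃‖ ≤ ε * Q₁.card * Q₂.card * Q₃.card := by
  rw [est_swap]
  refine (norm_sum_le _ _).trans ((Finset.sum_le_sum h).trans (le_of_eq ?_))
  rw [Finset.sum_const, nsmul_eq_mul]
  ring

theorem st_EST (hA : ST_ESA) (hB : ST_ESB) (hC : ST_ESC) : ST_EST := by
  intro ε K hε
  obtain ⟨D₂, hD⟩ := hA ε hε
  obtain ⟨IB, hIB⟩ := hB ε K hε
  obtain ⟨IC, hIC⟩ := hC ε K hε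
  refine ⟨D₂, max 1 (max IB IC), ?_⟩
  intro i j k d _ Q₁ Q₂ Q₃ b hi hj h5 hki hkj hd hdi hdj hb h1 h2 h3
  have hi1 : 1 ≤ i := (le_max_left _ _).trans hi
  have hiB : IB ≤ i := ((le_max_left _ _).trans (le_max_right _ _)).trans hi
  have hiC : IC ≤ i := ((le_max_right _ _).trans (le_max_right _ _)).trans hi
  have hjC : IC ≤ j := ((le_max_right _ _).trans (le_max_right _ _)).trans hj
  rcases Nat.lt_or_ge (2 ^ i) (d ^ 2) with hc | hc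
  · rcases Nat.lt_or_ge (2 ^ (2 * k)) (d * 2 ^ (2 * i)) with hc2 | hc2
    · exact hIC i j k d Q₁ Q₂ Q₃ b hiC hjC h5 hki hkj hdi hdj hc2 hb h1 h2 h3
    · refine est_sum b Q₁ Q₂ Q₃ ε fun q hq => ?_
      have hq' := h2.1 q hq
      exact hIB i k d Q₁ Q₃ _ hiB (by omega) hki hc hc2 (est_unit hb hq'.1 hq'.2.2.2) h1 h3
  · refine est_sum b Q₁ Q₂ Q₃ ε fun q hq => ?_
    have hq' := h2.1 q hq
    exact hD i k d Q₁ Q₃ _ hi1 (by omega) hd hc (est_unit hb hq'.1 hq'.2.2.2) h1 h3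

end Pool.Agent.Helper16.MD
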