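import Pool.Agent.Helper16.MD.Stmts

/-! # Module NCP: pairs of triples with a common prime -/

open Finset Filter
open scoped ComplexConjugate

namespace Pool.Agent.Helper16.MD

theorem ncp_card (D i j k : ℕ) :
    (Bk D i j k).card = (PB D i).card * ((PB D j).card * (PB D k).card) := by
  unfold Bk
  rw [Finset.card_product, Finset.card_product]

theorem ncp_one (D i j k m q : ℕ) (hm : m ≤ (PB D i).card) :
    m * ((Bk D i j k).filter fun t => t.1 = q).card ≤ (Bk D i j k).card := by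
  have hsub : ((Bk D i j k).filter fun t => t.1 = q) ⊆ {q} ×ˢ (PB D j ×ˢ PB D k) := by
    intro t ht
    unfold Bk at ht
    simp only [Finset.mem_filter, Finset.mem_product, Finset.mem_singleton] at ht ⊢
    exact ⟨ht.2, ht.1.2⟩
  have h1 := Finset.card_le_card hsub
  rw [Finset.card_product, Finset.card_product, Finset.card_singleton, one_mul] at h1
  rw [ncp_card]
  exact Nat.mul_le_mul hm h1

theorem ncp_two (D i j k m q : ℕ) (hm : m ≤ (PB D j).card) :
    m * ((Bk D i j k).filter fun t => t.2.1 = q).card ≤ (Bk D i j k).card := by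
  have hsub : ((Bk D i j k).filter fun t => t.2.1 = q) ⊆ PB D i ×ˢ ({q} ×ˢ PB D k) := by
    intro t ht
    unfold Bk at ht
    simp only [Finset.mem_filter, Finset.mem_product, Finset.mem_singleton] at ht ⊢
    exact ⟨ht.1.1, ht.2, ht.1.2.2⟩
  have h1 := Finset.card_le_card hsub
  rw [Finset.card_product, Finset.card_product, Finset.card_singleton, one_mul] at h1
  rw [ncp_card]
  calc m * ((Bk D i j k).filter fun t => t.2.1 = q).card ≤
        (PB D j).card * ((PB D i).card * (PB D k).card) := Nat.mul_le_mul hm h1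
    _ = _ := by ring

theorem ncp_three (D i j k m q : ℕ) (hm : m ≤ (PB D k).card) :
    m * ((Bk D i j k).filter fun t => t.2.2 = q).card ≤ (Bk D i j k).card := by
  have hsub : ((Bk D i j k).filter fun t => t.2.2 = q) ⊆ PB D i ×ˢ (PB D j ×ˢ {q}) := by
    intro t ht
    unfold Bk at ht
    simp only [Finset.mem_filter, Finset.mem_product, Finset.mem_singleton] at ht ⊢
    exact ⟨ht.1.1, ht.1.2.1, ht.2⟩
  have h1 := Finset.card_le_card hsub
  rw [Finset.card_product, Finset.card_product, Finset.card_singleton, mul_one] at h1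
  rw [ncp_card]
  calc m * ((Bk D i j k).filter fun t => t.2.2 = q).card ≤
        (PB D k).card * ((PB D i).card * (PB D j).card) := Nat.mul_le_mul hm h1
    _ = _ := by ring

/-- the triples containing a given prime -/
theorem ncp_any (D i j k m q : ℕ) (h1 : m ≤ (PB D i).card) (h2 : m ≤ (PB D j).card)
    (h3 : m ≤ (PB D k).card) :
    m * ((Bk D i j k).filter fun t => t.1 = q ∨ t.2.1 = q ∨ t.2.2 = q).card ≤
      3 * (Bk D i j k).card := by
  have e : ((Bk D i j k).filter fun t => t.1 = q ∨ t.2.1 = q ∨ t.2.2 = q) =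
      ((Bk D i j k).filter fun t => t.1 = q) ∪ (((Bk D i j k).filter fun t => t.2.1 = q) ∪
        ((Bk D i j k).filter fun t => t.2.2 = q)) := by
    rw [Finset.filter_or, Finset.filter_or]
  rw [e]
  have c1 := Finset.card_union_le ((Bk D i j k).filter fun t => t.1 = q)
    (((Bk D i j k).filter fun t => t.2.1 = q) ∪ ((Bk D i j k).filter fun t => t.2.2 = q))
  have c2 := Finset.card_union_le ((Bk D i j k).filter fun t => t.2.1 = q)
    ((Bk D i j k).filter fun t => t.2.2 = q)
  have d1 := ncp_one D i j k m q h1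
  have d2 := ncp_two D i j k m q h2
  have d3 := ncp_three D i j k m q h3
  have c3 := c1.trans (Nat.add_le_add_left c2 _)
  have c4 := Nat.mul_le_mul_left m c3
  rw [Nat.mul_add, Nat.mul_add] at c4
  omega

theorem ncp_mem {D i j k : ℕ} {s : ℕ × ℕ × ℕ} (hs : s ∈ Bk D i j k) :
    s.1.Prime ∧ s.2.1.Prime ∧ s.2.2.Prime := by
  unfold Bk PB at hs
  simp only [Finset.mem_filter, Finset.mem_product] at hs
  exact ⟨hs.1.2.1, hs.2.1.2.1, hs.2.2.2.1⟩

theorem ncp_dvd {p : ℕ} {t : ℕ × ℕ × ℕ} (hp : p.Prime) (ht : t.1.Prime ∧ t.2.1.Prime ∧ t.2.2.Prime)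
    (h : p ∣ pr t) : t.1 = p ∨ t.2.1 = p ∨ t.2.2 = p := by
  unfold pr at h
  rcases (hp.dvd_mul).mp h with h | h
  · exact Or.inl ((Nat.prime_dvd_prime_iff_eq hp ht.1).mp h).symm
  · rcases (hp.dvd_mul).mp h with h | h
    · exact Or.inr (Or.inl ((Nat.prime_dvd_prime_iff_eq hp ht.2.1).mp h).symm)
    · exact Or.inr (Or.inr ((Nat.prime_dvd_prime_iff_eq hp ht.2.2).mp h).symm)

theorem st_NCP : ST_NCP := by
  intro D i j k m s hs h1 h2 h3
  have hsub : ((Bk D i j k).filter fun t => ¬ (pr s).Coprime (pr t)) ⊆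
      ((Bk D i j k).filter fun t => t.1 = s.1 ∨ t.2.1 = s.1 ∨ t.2.2 = s.1) ∪
      (((Bk D i j k).filter fun t => t.1 = s.2.1 ∨ t.2.1 = s.2.1 ∨ t.2.2 = s.2.1) ∪
       ((Bk D i j k).filter fun t => t.1 = s.2.2 ∨ t.2.1 = s.2.2 ∨ t.2.2 = s.2.2)) := by
    intro t ht
    rw [Finset.mem_filter] at ht
    obtain ⟨htB, hnc⟩ := ht
    obtain ⟨p, hp, hps, hpt⟩ := Nat.Prime.not_coprime_iff_dvd.mp hnc
    have hsp := ncp_dvd hp (ncp_mem hs) hps
    have htp := ncp_dvd hp (ncp_mem htB) hpt
    rw [Finset.mem_union, Finset.mem_union, Finset.mem_filter, Finset.mem_filter,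
      Finset.mem_filter]
    rcases hsp with h | h | h
    · exact Or.inl ⟨htB, by rw [h]; exact htp⟩
    · exact Or.inr (Or.inl ⟨htB, by rw [h]; exact htp⟩)
    · exact Or.inr (Or.inr ⟨htB, by rw [h]; exact htp⟩)
  have c0 := Finset.card_le_card hsub
  have c1 := c0.trans (Finset.card_union_le _ _)
  have c2 := c1.trans (Nat.add_le_add_left (Finset.card_union_le _ _) _)
  have c3 := Nat.mul_le_mul_left m c2
  rw [Nat.mul_add, Nat.mul_add] at c3
  have d1 := ncp_any D i j k m s.1 h1 h2 h3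
  have d2 := ncp_any D i j k m s.2.1 h1 h2 h3
  have d3 := ncp_any D i j k m s.2.2 h1 h2 h3
  omega

end Pool.Agent.Helper16.MD
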